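import Pool.Agent.X304.Learn.Main

/-!
# Asymptotic learning in a deterministic network with bounded signals

The state `θ` is uniform on `Bool`; given `θ = t` the private signals `s_0, s_1, …` are independent with law `F t` on
`Bool` (`world F` is the joint law). Both values of the signal have positive probability in both states, so the
likelihood ratio is bounded away from `0` and `∞` (bounded signals), and the value `true` is more likely in the state
`true` than in the state `false`. Agent `n` observes her signal and the actions of the agents in the fixed finite set
`N n` of earlier agents, and takes the action which maximises the posterior probability of being equal to `θ`; ties are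
broken by an arbitrary fixed rule `tie`, a function of the agent, of the observed actions and of her signal
(`play F tie N n u` is the action of agent `n` if the signals are `u`).

The theorem: for every such signal law and every tie-breaking rule there is a deterministic network `N` in which
asymptotic learning holds: `P (a_n = θ) → 1`.

Idea of the proof. Given the history `h` of a finite network, all new agents observe `h`; hence one has to find, for any
odds of `θ` given `h`, and any number of agents who repeat their signals `1` (test agents), further rational agents such
that a new agent who sees some of them is not herding although EVERYBODY before her chose `1`. The gadget: `y` sees `h`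
and many signals; `f_i` sees `y` and ONE signal `v_i`, and also so many signals `R` that `R ≡ 1, y = 0` makes her follow
`v_i`; `g_ij` sees `R`, `v_i`, `f_i` and a block `C_j` of signals, but not `y`. Then `v_i = 0, f_i = 1` reveals `y = 1`,
which is much better news than `v_i = f_i = 1`, so that `g_ij` can be made to choose `1` in the first case whatever
`C_j`, and `0` in the second case if `C_j ≡ 0`. An agent who sees `R ≡ 1` and `f_i = g_ij = 1` for all `i, j` must
therefore believe that all `v_i = 0` (otherwise one of the many blocks `C_j` would have been `0`), which is strong
evidence for the state `0`; with some more signals `1` her odds are tuned into the range in which she follows her own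
signal. As this can be done for every history, with many copies of the last agent, the state is learned, while the
agents of stage `m` see the whole history up to stage `m - 1` and are right with probability close to one.
-/

set_option autoImplicit false

open MeasureTheory Filter Topology
open Pool.Agent.X304.Learn

namespace Pool.Agent.Results.MP_a79c01_pr.DeterministicLearning

/-- There are binary signal laws with full support and `P(s = 1 | θ = 0) < P(s = 1 | θ = 1)`; and for every such law and
every tie-breaking rule there is a deterministic network in which asymptotic learning holds. -/
theorem result :
    (∃ F : Bool → Measure Bool, (∀ t, IsProbabilityMeasure (F t)) ∧ (∀ t s, F t {s} ≠ 0) ∧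
      F false {true} < F true {true}) ∧
    ∀ (F : Bool → Measure Bool) [∀ t, IsProbabilityMeasure (F t)],
      (∀ t s, F t {s} ≠ 0) → F false {true} < F true {true} →
      ∀ tie : ℕ → (ℕ → Bool) → Bool → Bool,
        ∃ N : ℕ → Finset ℕ, (∀ n, ∀ m ∈ N n, m < n) ∧
          Tendsto (fun n => world F {ω | play F tie N n ω.2 = ω.1}) atTop (𝓝 1) := by
  refine ⟨?_, fun F _ hpos hinf tie => main F hpos hinf tie⟩
  have e3 : (3 : ENNReal)⁻¹ + 2 * 3⁻¹ = 1 := by
    have : (3 : ENNReal)⁻¹ + 2 * 3⁻¹ = 3 * 3⁻¹ := by ring
    rw [this]
    exact ENNReal.mul_inv_cancel (by norm_num) (by norm_num)
  have hlt : (3 : ENNReal)⁻¹ < 2 * 3⁻¹ := by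
    have h0 : (3 : ENNReal)⁻¹ ≠ 0 := ENNReal.inv_ne_zero.2 (by norm_num)
    have h1 : (3 : ENNReal)⁻¹ ≠ ⊤ := ENNReal.inv_ne_top.2 (by norm_num)
    calc (3 : ENNReal)⁻¹ < 3⁻¹ + 3⁻¹ := ENNReal.lt_add_right h1 h0
      _ = 2 * 3⁻¹ := by ring
  refine ⟨fun t => ((3 : ENNReal)⁻¹) • Measure.dirac (!t) + (2 * (3 : ENNReal)⁻¹) • Measure.dirac t,
    ?_, ?_, ?_⟩
  · intro t
    refine ⟨?_⟩
    simp only [Measure.add_apply, Measure.smul_apply, smul_eq_mul, measure_univ, mul_one]
    exact e3
  · intro t s
    cases t <;> cases s <;> simp
  · simpa using hlt

end Pool.Agent.Results.MP_a79c01_pr.DeterministicLearning
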